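import Pool.Agent.H93.EN.Targets4

/-!
# Row U1: the modes of the mollification are smooth
-/

namespace Pool.Agent.H75.EN

open MeasureTheory Set Metric Filter Topology Pool.Agent.H93.EN
open Pool.Agent.H93.BL hiding T_B1 T_B2 T_B3 T_SB T_SC
open scoped ContDiff Convolution

/-- the modes of a bounded measurable function of position and direction are measurable -/
theorem meas_md (Φ : ℂ → ℂ → ℝ) (hΦ : Measurable (Function.uncurry Φ)) (k : ℤ) :
    Measurable fun y => md (Φ y) k := by
  have h1 : Measurable fun p : ℂ × ℝ => ((Φ p.1 (Complex.exp ((p.2 : ℂ) * Complex.I)) : ℝ) : ℂ) *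
      Complex.exp (-((k : ℂ) * (p.2 : ℂ) * Complex.I)) := by
    refine Measurable.mul ?_ ?_
    · refine Complex.measurable_ofReal.comp ?_
      have h2 : Measurable fun p : ℂ × ℝ => (p.1, Complex.exp ((p.2 : ℂ) * Complex.I)) := by
        refine measurable_fst.prodMk ?_
        exact (Continuous.measurable (by fun_prop))
      exact hΦ.comp h2
    · exact Continuous.measurable (by fun_prop)
  have h3 : StronglyMeasurable fun y : ℂ => ∫ θ in Ioc 0 (2 * Real.pi),
      ((Φ y (Complex.exp ((θ : ℂ) * Complex.I)) : ℝ) : ℂ) *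
      Complex.exp (-((k : ℂ) * (θ : ℂ) * Complex.I)) :=
    h1.stronglyMeasurable.integral_prod_right'
  have h4 : (fun y => md (Φ y) k) = fun y : ℂ => (((2 * Real.pi)⁻¹ : ℝ) : ℂ) *
      ∫ θ in Ioc 0 (2 * Real.pi), ((Φ y (Complex.exp ((θ : ℂ) * Complex.I)) : ℝ) : ℂ) *
      Complex.exp (-((k : ℂ) * (θ : ℂ) * Complex.I)) := by
    funext y
    unfold md
    rw [intervalIntegral.integral_of_le (by positivity)]
  rw [h4]
  exact measurable_const.mul h3.measurable

theorem norm_exp_md (k : ℤ) (θ : ℝ) : ‖Complex.exp (-((k : ℂ) * (θ : ℂ) * Complex.I))‖ = 1 := by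
  have : -((k : ℂ) * (θ : ℂ) * Complex.I) = ((-(k * θ) : ℝ) : ℂ) * Complex.I := by
    push_cast
    ring
  rw [this]
  exact Complex.norm_exp_ofReal_mul_I _

theorem norm_md_le (g : ℂ → ℝ) (hg : ∀ w, |g w| ≤ 1) (k : ℤ) : ‖md g k‖ ≤ 1 := by
  unfold md
  rw [norm_mul]
  have h1 : ‖∫ θ in (0 : ℝ)..(2 * Real.pi), (g (Complex.exp ((θ : ℂ) * Complex.I)) : ℂ) *
      Complex.exp (-((k : ℂ) * (θ : ℂ) * Complex.I))‖ ≤ 1 * |2 * Real.pi - 0| := by
    refine intervalIntegral.norm_integral_le_of_norm_le_const fun θ _ => ?_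
    rw [norm_mul, norm_exp_md, mul_one, Complex.norm_real, Real.norm_eq_abs]
    exact hg _
  have h2 : ‖(((2 * Real.pi)⁻¹ : ℝ) : ℂ)‖ = (2 * Real.pi)⁻¹ := by
    rw [Complex.norm_real, Real.norm_eq_abs, abs_of_nonneg (by positivity)]
  rw [h2]
  have h3 : |2 * Real.pi - 0| = 2 * Real.pi := by
    rw [sub_zero, abs_of_nonneg (by positivity)]
  rw [h3, one_mul] at h1
  calc (2 * Real.pi)⁻¹ * _ ≤ (2 * Real.pi)⁻¹ * (2 * Real.pi) :=
        mul_le_mul_of_nonneg_left h1 (by positivity)
    _ = 1 := inv_mul_cancel₀ (by positivity)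

/-- Fubini for the modes -/
theorem md_integral (Φ : ℂ → ℂ → ℝ) (hΦ : Measurable (Function.uncurry Φ))
    (hb : ∀ y w, |Φ y w| ≤ 1) (κ : ℂ → ℝ) (hκ : Integrable κ) (k : ℤ) :
    md (fun w => ∫ y, κ y * Φ y w) k = ∫ y, (κ y : ℂ) * md (Φ y) k := by
  have h0 : (0 : ℝ) ≤ 2 * Real.pi := by positivity
  have hprod : Integrable (fun p : ℝ × ℂ => ((κ p.2 * Φ p.2 (Complex.exp ((p.1 : ℂ) * Complex.I))
      : ℝ) : ℂ) * Complex.exp (-((k : ℂ) * (p.1 : ℂ) * Complex.I)))
      ((volume.restrict (Ioc 0 (2 * Real.pi))).prod volume) := by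
    have hg : Integrable (fun p : ℝ × ℂ => ‖κ p.2‖)
        ((volume.restrict (Ioc 0 (2 * Real.pi))).prod volume) := by
      have h1 : Integrable (fun _ : ℝ => (1 : ℝ)) (volume.restrict (Ioc 0 (2 * Real.pi))) :=
        integrable_const _
      have h2 := h1.mul_prod hκ.norm
      refine h2.congr (Filter.Eventually.of_forall fun p => ?_)
      simp
    refine hg.mono' ?_ (Filter.Eventually.of_forall fun p => ?_)
    · refine AEStronglyMeasurable.mul ?_ ?_
      · refine Complex.continuous_ofReal.comp_aestronglyMeasurable ?_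
        refine AEStronglyMeasurable.mul ?_ ?_
        · exact hκ.1.comp_quasiMeasurePreserving Measure.quasiMeasurePreserving_snd
        · refine Measurable.aestronglyMeasurable ?_
          have h2 : Measurable fun p : ℝ × ℂ => (p.2, Complex.exp ((p.1 : ℂ) * Complex.I)) := by
            refine measurable_snd.prodMk ?_
            exact (Continuous.measurable (by fun_prop))
          exact hΦ.comp h2
      · exact (Continuous.measurable (by fun_prop)).aestronglyMeasurable
    · rw [norm_mul, norm_exp_md, mul_one, Complex.norm_real, norm_mul]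
      calc ‖κ p.2‖ * ‖Φ p.2 (Complex.exp ((p.1 : ℂ) * Complex.I))‖ ≤ ‖κ p.2‖ * 1 :=
            mul_le_mul_of_nonneg_left (hb _ _) (norm_nonneg _)
        _ = ‖κ p.2‖ := mul_one _
  unfold md
  have h1 : ∀ θ : ℝ, (((∫ y, κ y * Φ y (Complex.exp ((θ : ℂ) * Complex.I)) : ℝ)) : ℂ) *
      Complex.exp (-((k : ℂ) * (θ : ℂ) * Complex.I)) =
      ∫ y, ((κ y * Φ y (Complex.exp ((θ : ℂ) * Complex.I)) : ℝ) : ℂ) *
        Complex.exp (-((k : ℂ) * (θ : ℂ) * Complex.I)) := by
    intro θ
    rw [← integral_complex_ofReal, integral_mul_const]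
  simp only [h1]
  rw [intervalIntegral.integral_of_le h0, integral_integral_swap hprod, ← integral_const_mul]
  refine integral_congr_ae (Filter.Eventually.of_forall fun y => ?_)
  simp only []
  rw [intervalIntegral.integral_of_le h0]
  have h2 : ∀ θ : ℝ, ((κ y * Φ y (Complex.exp ((θ : ℂ) * Complex.I)) : ℝ) : ℂ) *
      Complex.exp (-((k : ℂ) * (θ : ℂ) * Complex.I)) =
      (κ y : ℂ) * (((Φ y (Complex.exp ((θ : ℂ) * Complex.I)) : ℝ) : ℂ) *
        Complex.exp (-((k : ℂ) * (θ : ℂ) * Complex.I))) := by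
    intro θ
    push_cast
    ring
  simp only [h2]
  rw [integral_const_mul]
  ring

/-- the modes are integrable -/
theorem int_md (Φ : ℂ → ℂ → ℝ) (hΦ : Bd Φ) (k : ℤ) : Integrable fun y => md (Φ y) k := by
  obtain ⟨hm, hb, R, hR⟩ := hΦ
  have h1 : ∀ y w, |Φ y w| ≤ 1 := fun y w => by
    rw [abs_of_nonneg (hb y w).1]
    exact (hb y w).2
  have h2 : Integrable (indicator (closedBall (0 : ℂ) R) fun _ => (1 : ℝ)) := by
    rw [integrable_indicator_iff measurableSet_closedBall]
    exact integrableOn_const (isCompact_closedBall _ _).measure_lt_top.ne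
  refine h2.mono' (meas_md Φ hm k).aestronglyMeasurable (Filter.Eventually.of_forall fun y => ?_)
  by_cases hy : y ∈ closedBall (0 : ℂ) R
  · rw [indicator_of_mem hy]
    exact norm_md_le _ (h1 y) k
  · rw [indicator_of_notMem hy]
    have hy' : R < ‖y‖ := by
      rw [mem_closedBall, dist_zero_right, not_le] at hy
      exact hy
    have h3 : Φ y = fun _ => 0 := funext fun w => hR y w hy'
    rw [h3]
    unfold md
    simp

/-- the bilinear map -/
noncomputable def BL0 : ℂ →L[ℝ] ℝ →L[ℝ] ℂ := (ContinuousLinearMap.lsmul ℝ ℝ).flip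

theorem BL0_apply (a : ℂ) (t : ℝ) : BL0 a t = (t : ℂ) * a := by
  simp [BL0]

theorem u1 (h1 : T_CH) (h2 : T_U0) (h3 : T_B2) : T_U1 := by
  intro Φ hΦ δ hδ k
  obtain ⟨-, -, -, -, C, hC, hch⟩ := h1
  obtain ⟨hsm, hcs, hcb, hc0, -, -, hgc, hgb, hg0⟩ := hch δ hδ
  obtain ⟨C', hC', hU0⟩ := h2
  obtain ⟨hMm, hNm, hHm, hbd⟩ := hU0 Φ hΦ δ hδ
  have hΦm := hΦ.1
  have hΦb : ∀ y w, |Φ y w| ≤ 1 := fun y w => by
    rw [abs_of_nonneg (hΦ.2.1 y w).1]
    exact (hΦ.2.1 y w).2
  -- kernels
  have hkint : ∀ x, Integrable fun y => chi δ (x - y) := fun x =>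
    ((hsm.continuous.integrable_of_hasCompactSupport hcs).comp_sub_left x)
  have hsm1 : ContDiff ℝ 1 (chi δ) := hsm.of_le (by exact_mod_cast le_top)
  have hfc : Continuous (fderiv ℝ (chi δ)) := hsm1.continuous_fderiv (by norm_num)
  have hfcs : HasCompactSupport (fderiv ℝ (chi δ)) := hcs.fderiv ℝ
  have hfint : ∀ (v x : ℂ), Integrable fun y => fderiv ℝ (chi δ) (x - y) v := by
    intro v x
    have hc : Continuous fun z => fderiv ℝ (chi δ) z v := hfc.clm_apply continuous_const
    have hs : HasCompactSupport fun z => fderiv ℝ (chi δ) z v :=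
      hfcs.comp_left (g := fun A : ℂ →L[ℝ] ℝ => A v) (by simp)
    exact (hc.integrable_of_hasCompactSupport hs).comp_sub_left x
  -- the modes of the mollification as convolutions
  have hconv : ∀ k : ℤ, (fun x => md (Ml Φ δ x) k) =
      (fun y => md (Φ y) k) ⋆[BL0, volume] (chi δ) := by
    intro k
    funext x
    have : Ml Φ δ x = fun w => ∫ y, chi δ (x - y) * Φ y w := rfl
    rw [this, md_integral Φ hΦm hΦb _ (hkint x) k]
    unfold convolution
    refine integral_congr_ae (Filter.Eventually.of_forall fun y => ?_)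
    simp only [BL0_apply]
  have hli : ∀ k : ℤ, LocallyIntegrable (fun y => md (Φ y) k) volume := fun k =>
    (int_md Φ hΦ k).locallyIntegrable
  have hsmu : ∀ k : ℤ, ContDiff ℝ 2 fun x => md (Ml Φ δ x) k := by
    intro k
    rw [hconv k]
    exact hcs.contDiff_convolution_right BL0 (hli k) (hsm.of_le (by exact_mod_cast le_top))
  have hder : ∀ (k : ℤ) (v x : ℂ), fderiv ℝ (fun x => md (Ml Φ δ x) k) x v =
      md (fun w => ∫ y, fderiv ℝ (chi δ) (x - y) v * Φ y w) k := by
    intro k v x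
    rw [hconv k, (hcs.hasFDerivAt_convolution_right BL0 (hli k) hsm1 x).fderiv,
      convolution_precompR_apply BL0 (hli k) hfcs hfc, md_integral Φ hΦm hΦb _ (hfint v x) k]
    unfold convolution
    refine integral_congr_ae (Filter.Eventually.of_forall fun y => ?_)
    simp only [BL0_apply]
  -- real and imaginary parts of the gradient
  have hgint : ∀ x w, Integrable fun y => gchi δ (x - y) * (Φ y w : ℂ) := by
    intro x w
    have ha : Integrable fun y => gchi δ (x - y) := by
      have : (fun y => gchi δ (x - y)) = fun y => ((fderiv ℝ (chi δ) (x - y) 1 : ℝ) : ℂ) +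
          ((fderiv ℝ (chi δ) (x - y) Complex.I : ℝ) : ℂ) * Complex.I := rfl
      rw [this]
      exact (hfint 1 x).ofReal.add ((hfint Complex.I x).ofReal.mul_const _)
    refine ha.mul_bdd (c := 1) ?_ (Filter.Eventually.of_forall fun y => ?_)
    · refine (Complex.measurable_ofReal.comp ?_).aestronglyMeasurable
      exact hΦm.comp (measurable_id.prodMk measurable_const)
    · rw [Complex.norm_real, Real.norm_eq_abs]
      exact hΦb y w
  have hre : ∀ x, (fun w => (Nl Φ δ x w).re) =
      fun w => ∫ y, fderiv ℝ (chi δ) (x - y) 1 * Φ y w := by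
    intro x
    funext w
    unfold Nl
    have h5 := Complex.reCLM.integral_comp_comm (hgint x w)
    rw [Complex.reCLM_apply] at h5
    rw [← h5]
    refine integral_congr_ae (Filter.Eventually.of_forall fun y => ?_)
    simp [gchi]
  have him : ∀ x, (fun w => (Nl Φ δ x w).im) =
      fun w => ∫ y, fderiv ℝ (chi δ) (x - y) Complex.I * Φ y w := by
    intro x
    funext w
    unfold Nl
    have h5 := Complex.imCLM.integral_comp_comm (hgint x w)
    rw [Complex.imCLM_apply] at h5
    rw [← h5]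
    refine integral_congr_ae (Filter.Eventually.of_forall fun y => ?_)
    simp [gchi]
  have hd1 : ∀ (k : ℤ) (x : ℂ), fderiv ℝ (fun x => md (Ml Φ δ x) k) x 1 =
      md (fun w => (Nl Φ δ x w).re) k := by
    intro k x
    rw [hder k 1 x, hre x]
  have hdI : ∀ (k : ℤ) (x : ℂ), fderiv ℝ (fun x => md (Ml Φ δ x) k) x Complex.I =
      md (fun w => (Nl Φ δ x w).im) k := by
    intro k x
    rw [hder k Complex.I x, him x]
  have hcd : ∀ (k : ℤ) (v : ℂ), Continuous fun x => fderiv ℝ (fun x => md (Ml Φ δ x) k) x v := by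
    intro k v
    exact ((hsmu k).continuous_fderiv (by norm_num)).clm_apply continuous_const
  refine ⟨hsmu k, hd1 k, hdI k, ?_, ?_⟩
  · -- the modes of the orthogonal component
    have hNx : ∀ x, Measurable (Nl Φ δ x) := fun x => hNm.of_uncurry_left
    have hbre : ∀ x w, ‖w‖ = 1 → |(Nl Φ δ x w).re| ≤ C' / δ := fun x w _ =>
      (Complex.abs_re_le_norm _).trans (hbd x w).2.2.1
    have hbim : ∀ x w, ‖w‖ = 1 → |(Nl Φ δ x w).im| ≤ C' / δ := fun x w _ =>
      (Complex.abs_im_le_norm _).trans (hbd x w).2.2.1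
    have hH : ∀ x, md (Hl Φ δ x) k = Complex.I / 2 * (md (fun w => (Nl Φ δ x w).re) (k - 1) -
        md (fun w => (Nl Φ δ x w).re) (k + 1)) + 1 / 2 * (md (fun w => (Nl Φ δ x w).im) (k - 1) +
        md (fun w => (Nl Φ δ x w).im) (k + 1)) := by
      intro x
      have hmr : Measurable fun w => (Nl Φ δ x w).re := Complex.measurable_re.comp (hNx x)
      have hmi : Measurable fun w => (Nl Φ δ x w).im := Complex.measurable_im.comp (hNx x)
      obtain ⟨-, -, -, ha⟩ := h3 _ _ (C' / δ) hmr hmr (hbre x) (hbre x)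
      obtain ⟨-, -, -, hb⟩ := h3 _ _ (C' / δ) hmi hmi (hbim x) (hbim x)
      obtain ⟨-, -, -, ha4, -⟩ := ha k
      obtain ⟨-, -, -, -, hb5⟩ := hb k
      rw [← ha4, ← hb5]
      have hm1 : Measurable fun w : ℂ => -(w.im) * (Nl Φ δ x w).re :=
        Complex.measurable_im.neg.mul hmr
      have hm2 : Measurable fun w : ℂ => w.re * (Nl Φ δ x w).im :=
        Complex.measurable_re.mul hmi
      have hb1 : ∀ w : ℂ, ‖w‖ = 1 → |-(w.im) * (Nl Φ δ x w).re| ≤ C' / δ := by
        intro w hw
        rw [abs_mul, abs_neg]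
        calc |w.im| * |(Nl Φ δ x w).re| ≤ 1 * (C' / δ) :=
              mul_le_mul ((Complex.abs_im_le_norm w).trans hw.le) (hbre x w hw) (abs_nonneg _)
                zero_le_one
          _ = C' / δ := one_mul _
      have hb2 : ∀ w : ℂ, ‖w‖ = 1 → |w.re * (Nl Φ δ x w).im| ≤ C' / δ := by
        intro w hw
        rw [abs_mul]
        calc |w.re| * |(Nl Φ δ x w).im| ≤ 1 * (C' / δ) :=
              mul_le_mul ((Complex.abs_re_le_norm w).trans hw.le) (hbim x w hw) (abs_nonneg _)
                zero_le_one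
          _ = C' / δ := one_mul _
      obtain ⟨-, -, -, hs⟩ := h3 _ _ (C' / δ) hm1 hm2 hb1 hb2
      rw [← (hs k).2.2.1]
      congr 1
      funext w
      unfold Hl
      simp only [map_mul, Complex.conj_I, Complex.mul_re, Complex.mul_im, Complex.neg_re,
        Complex.neg_im, Complex.I_re, Complex.I_im, Complex.conj_re, Complex.conj_im]
      ring
    have h6 : ∀ x, md (Hl Φ δ x) k =
        Complex.I / 2 * (fderiv ℝ (fun x => md (Ml Φ δ x) (k - 1)) x 1 -
        fderiv ℝ (fun x => md (Ml Φ δ x) (k + 1)) x 1) +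
        1 / 2 * (fderiv ℝ (fun x => md (Ml Φ δ x) (k - 1)) x Complex.I +
        fderiv ℝ (fun x => md (Ml Φ δ x) (k + 1)) x Complex.I) := by
      intro x
      rw [hH x, hd1 (k - 1) x, hd1 (k + 1) x, hdI (k - 1) x, hdI (k + 1) x]
    have c1 := hcd (k - 1) 1
    have c2 := hcd (k + 1) 1
    have c3 := hcd (k - 1) Complex.I
    have c4 := hcd (k + 1) Complex.I
    have h6' : (fun x => md (Hl Φ δ x) k) = fun x =>
        Complex.I / 2 * (fderiv ℝ (fun x => md (Ml Φ δ x) (k - 1)) x 1 -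
        fderiv ℝ (fun x => md (Ml Φ δ x) (k + 1)) x 1) +
        1 / 2 * (fderiv ℝ (fun x => md (Ml Φ δ x) (k - 1)) x Complex.I +
        fderiv ℝ (fun x => md (Ml Φ δ x) (k + 1)) x Complex.I) := funext h6
    rw [h6']
    exact (continuous_const.mul (c1.sub c2)).add (continuous_const.mul (c3.add c4))
  · have h7 : (fun x => av (Ml Φ δ x)) = fun x => (md (Ml Φ δ x) 0).re := by
      funext x
      have hMx : Measurable (Ml Φ δ x) := hMm.of_uncurry_left
      have hb1 : ∀ w : ℂ, ‖w‖ = 1 → |Ml Φ δ x w| ≤ 1 := fun w _ => by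
        rw [abs_of_nonneg (hbd x w).1]
        exact (hbd x w).2.1
      obtain ⟨h8, -⟩ := h3 _ _ 1 hMx hMx hb1 hb1
      have h9 : md (Ml Φ δ x) 0 = (av (Ml Φ δ x) : ℂ) := h8
      rw [h9, Complex.ofReal_re]
    rw [h7]
    exact Complex.continuous_re.comp (hsmu 0).continuous

end Pool.Agent.H75.EN
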